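import Pool.Agent.Helper65.TU.Stmts

/-! Project TU, row TAIL: uniform tails of the coordinates on weakly compact sets. -/

open Set Filter Topology

namespace Pool.Agent.Helper97.TU

universe u v

theorem tail_one {Γ : Type v} (a : Γ → ℝ) (ha : Summable (fun g => |a g|)) (ε : ℝ) (hε : 0 < ε) :
    ∃ F0 : Finset Γ, ∀ s : Γ → ℝ, (∀ g, |s g| ≤ 1) → (∀ g ∈ F0, s g = 0) →
      |∑' g, s g * a g| ≤ ε := by
  classical
  have h1 : ∀ᶠ F : Finset Γ in atTop, (∑' g, |a g|) - ε < ∑ g ∈ F, |a g| :=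
    ha.hasSum.eventually (lt_mem_nhds (by linarith))
  obtain ⟨F0, hF0⟩ := h1.exists
  refine ⟨F0, fun s hs h0 => ?_⟩
  have h2 : HasSum (fun g => if g ∈ F0 then |a g| else 0) (∑ g ∈ F0, |a g|) := by
    have h3 : HasSum (fun g => if g ∈ F0 then |a g| else 0)
        (∑ g ∈ F0, (if g ∈ F0 then |a g| else 0)) :=
      hasSum_sum_of_ne_finset_zero (fun g hg => by simp [hg])
    have h4 : ∑ g ∈ F0, (if g ∈ F0 then |a g| else 0) = ∑ g ∈ F0, |a g| :=
      Finset.sum_congr rfl fun g hg => by simp [hg]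
    rwa [h4] at h3
  have h5 := ha.hasSum.sub h2
  have hle : ∀ g, |s g * a g| ≤ |a g| := by
    intro g
    rw [abs_mul]
    calc |s g| * |a g| ≤ 1 * |a g| := mul_le_mul_of_nonneg_right (hs g) (abs_nonneg _)
      _ = |a g| := one_mul _
  have hsum : Summable (fun g => |s g * a g|) :=
    Summable.of_nonneg_of_le (fun g => abs_nonneg _) hle ha
  have h6 : ∑' g, |s g * a g| ≤ ∑' g, |a g| - ∑ g ∈ F0, |a g| := by
    refine hasSum_le (fun g => ?_) hsum.hasSum h5
    by_cases hg : g ∈ F0
    · rw [h0 g hg]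
      simp [hg]
    · simpa [hg] using hle g
  have h7 : |∑' g, s g * a g| ≤ ∑' g, |s g * a g| := by
    have := norm_tsum_le_tsum_norm (f := fun g => s g * a g) (by simpa [Real.norm_eq_abs] using hsum)
    simpa only [Real.norm_eq_abs] using this
  linarith

theorem abs_tsum_le {Γ : Type v} (c s : Γ → ℝ) (hc : Summable (fun g => |c g|))
    (hs : ∀ g, |s g| ≤ 1) :
    |∑' g, s g * c g| ≤ ∑' g, |c g| := by
  have hle : ∀ g, |s g * c g| ≤ |c g| := by
    intro g
    rw [abs_mul]
    calc |s g| * |c g| ≤ 1 * |c g| := mul_le_mul_of_nonneg_right (hs g) (abs_nonneg _)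
      _ = |c g| := one_mul _
  have hsum : Summable (fun g => |s g * c g|) :=
    Summable.of_nonneg_of_le (fun g => abs_nonneg _) hle hc
  have h7 : |∑' g, s g * c g| ≤ ∑' g, |s g * c g| := by
    have := norm_tsum_le_tsum_norm (f := fun g => s g * c g) (by simpa [Real.norm_eq_abs] using hsum)
    simpa only [Real.norm_eq_abs] using this
  exact h7.trans (hsum.tsum_le_tsum hle hc)

theorem summable_mul {Γ : Type v} (c s : Γ → ℝ) (hc : Summable (fun g => |c g|))
    (hs : ∀ g, |s g| ≤ 1) : Summable (fun g => s g * c g) := by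
  refine Summable.of_norm_bounded hc fun g => ?_
  rw [Real.norm_eq_abs, abs_mul]
  calc |s g| * |c g| ≤ 1 * |c g| := mul_le_mul_of_nonneg_right (hs g) (abs_nonneg _)
    _ = |c g| := one_mul _

end Pool.Agent.Helper97.TU

namespace Pool.Agent.Helper65.TU

universe u v

open Pool.Agent.Helper97.TU

theorem st_TAIL (hES : ST_ES.{u}) (hL1 : ST_L1.{u, v}) (hSCH : ST_SCH.{v}) :
    ST_TAIL.{u, v} := by
  classical
  intro Γ X _ _ e co C hCS f K hK ε hε
  by_contra hcon
  push Not at hcon
  have hs1 : ∀ x : X, Summable (fun g => |f (e g) * co g x|) := fun x => (hL1 Γ X e co C hCS f x).1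
  choose bad hbK hbs using hcon
  choose tl htl using fun x : X => tail_one (fun g => f (e g) * co g x) (hs1 x) (ε / 4)
    (by linarith)
  let FF : ℕ → Finset Γ := fun n => Nat.rec ∅ (fun _ F => F ∪ tl (bad F)) n
  have hFs : ∀ n, FF (n + 1) = FF n ∪ tl (bad (FF n)) := fun n => rfl
  have hmono : Monotone FF := by
    refine monotone_nat_of_le_succ fun n => ?_
    rw [hFs n]
    exact Finset.subset_union_left
  have htlF : ∀ j n, j < n → tl (bad (FF j)) ⊆ FF n := by
    intro j n hjn
    have h1 : tl (bad (FF j)) ⊆ FF (j + 1) := by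
      rw [hFs j]
      exact Finset.subset_union_right
    exact h1.trans (hmono hjn)
  obtain ⟨φ, hφ, z, hzK, hz⟩ := hES X K hK (fun n => bad (FF n)) (fun n => hbK _)
  have hsd : ∀ k, Summable (fun g => |f (e g) * co g (bad (FF (φ k))) - f (e g) * co g z|) := by
    intro k
    refine Summable.of_nonneg_of_le (fun g => abs_nonneg _) (fun g => abs_sub _ _)
      ((hs1 (bad (FF (φ k)))).add (hs1 z))
  have hlim := hSCH Γ (fun k g => f (e g) * co g (bad (FF (φ k))) - f (e g) * co g z) hsd ?_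
  · have hev : ∀ᶠ k in atTop,
        ∑' g, |f (e g) * co g (bad (FF (φ k))) - f (e g) * co g z| < ε / 8 :=
      hlim.eventually (gt_mem_nhds (by linarith))
    obtain ⟨k0, hk0⟩ := eventually_atTop.1 hev
    have b0 := hk0 k0 le_rfl
    have b1 := hk0 (k0 + 1) (by omega)
    obtain ⟨s, hs, hs0, hbig⟩ := hbs (FF (φ (k0 + 1)))
    have hlt : φ k0 < φ (k0 + 1) := hφ (by omega)
    have c0 := htl (bad (FF (φ k0))) s hs (fun g hg => hs0 g (htlF _ _ hlt hg))
    have d0 := abs_tsum_le _ s (hsd k0) hs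
    have d1 := abs_tsum_le _ s (hsd (k0 + 1)) hs
    have e0 := summable_mul _ s (hsd k0) hs
    have e1 := summable_mul _ s (hsd (k0 + 1)) hs
    have e2 := summable_mul _ s (hs1 (bad (FF (φ k0)))) hs
    have heq : ∑' g, s g * (f (e g) * co g (bad (FF (φ (k0 + 1))))) =
        ∑' g, s g * (f (e g) * co g (bad (FF (φ (k0 + 1)))) - f (e g) * co g z) -
        ∑' g, s g * (f (e g) * co g (bad (FF (φ k0))) - f (e g) * co g z) +
        ∑' g, s g * (f (e g) * co g (bad (FF (φ k0)))) := by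
      rw [← e1.tsum_sub e0, ← (e1.sub e0).tsum_add e2]
      exact tsum_congr fun g => by ring
    rw [heq] at hbig
    have f1 := abs_le.1 (d1.trans b1.le)
    have f0 := abs_le.1 (d0.trans b0.le)
    have f2 := abs_le.1 c0
    rcases lt_abs.1 hbig with h | h <;> linarith [f1.1, f1.2, f0.1, f0.2, f2.1, f2.2]
  · intro s hs
    obtain ⟨T, hT, -⟩ := hCS.mul s hs
    have h1 : ∀ x, f (T x) = ∑' g, s g * (f (e g) * co g x) := fun x =>
      (hL1 Γ X e co C hCS f x).2.2 s hs (T x) (fun g => hT x g)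
    have h2 := hz (f.comp T)
    have h3 : Tendsto (fun k => f (T (bad (FF (φ k)))) - f (T z)) atTop (𝓝 0) := by
      have := h2.sub_const (f (T z))
      simpa using this
    refine h3.congr fun k => ?_
    rw [h1, h1, ← (summable_mul _ s (hs1 _) hs).tsum_sub (summable_mul _ s (hs1 _) hs)]
    exact tsum_congr fun g => by ring

end Pool.Agent.Helper65.TU
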